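import Mathlib
import Pool.Agent.N641.RR.Neg
import Pool.Agent.N641.RR.Dom

set_option autoImplicit false

/-!
# The polarized relation at the dominating number fails after adding random reals

`MAlg (coins (L × ℕ))` is the forcing with the measure algebra of the product measure on
`2 ^ (L × ω)`, i.e. it adds `|L|` random reals.
-/

namespace Pool.Agent.Results.MP_95a70f_lc.RandomReals

open Cardinal
open Pool.Agent.Helper292.SP (fnot)
open Pool.Agent.R582.Rand (MAlg coins)
open Pool.Agent.N641.RR

/-- After adding `λ = |L|` random reals: the relation `(κ, ω) → (κ, ω)` fails for every uncountable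
`κ ≤ λ` (whatever holds in the ground model); if `λ ≥ 𝔡` then `𝔡` is still the dominating number,
and the relation fails for it. Hence, for `λ > 𝔡`, the implication (if the relation holds for `𝔡`
then it still holds for `𝔡` after adding `λ` random reals) is true only if its hypothesis fails. -/
theorem result (L : Type) :
    (∀ K : Type, ℵ₀ < #K → #K ≤ #L →
      ∀ p : MAlg (coins (L × ℕ)), p ∈ fnot (FArrow (MAlg (coins (L × ℕ))) K)) ∧
    (dnum ≤ #L → ∀ D : Type, #D = dnum → ∀ p : MAlg (coins (L × ℕ)),
      p ∈ FDNum (MAlg (coins (L × ℕ))) D ∧ p ∈ fnot (FArrow (MAlg (coins (L × ℕ))) D)) ∧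
    (dnum < #L → ∀ D : Type, #D = dnum →
      ((Arrow D → ∀ p : MAlg (coins (L × ℕ)), p ∈ FArrow (MAlg (coins (L × ℕ))) D) ↔
        ¬ Arrow D)) := by
  refine ⟨fun K hK hKL p => fail K hK hKL p, fun hL D hD p => ⟨fdnum D hD p, ?_⟩,
    fun hL D hD => ⟨fun h hA => ?_, fun h hA => absurd hA h⟩⟩
  · exact fail D (hD ▸ aleph0_lt_dnum) (hD ▸ hL) p
  · let p : MAlg (coins (L × ℕ)) := ⟨Set.univ, MeasurableSet.univ, by simp⟩
    exact fail D (hD ▸ aleph0_lt_dnum) (hD ▸ hL.le) p p le_rfl (h hA p)

end Pool.Agent.Results.MP_95a70f_lc.RandomReals
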